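import Pool.Agent.H65Z.HC.Main

namespace Pool.Agent.Results.MP_ea0635_lc.AIteration

open Pool.Agent.H65Z.HC

/-- There are a forcing notion `P` and a `P`-name `Q` for a forcing notion such that `P` adds no
half-Cohen real, `P` forces that `Q` adds no half-Cohen real over the extension by `P`, and the
two-step iteration adds a half-Cohen real over the ground model. -/
theorem result : ∃ (P : Type) (_ : PartialOrder P) (_ : Nonempty P) (Q : ForcingName P),
    (∀ p : P, p ∈ Q.IsForcing) ∧ (∀ p : P, p ∈ fnot (AddsHalfCohen P)) ∧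
      (∀ p : P, p ∈ Q.AddsNoHalfCohen) ∧ Nonempty Q.Iter ∧
      ∀ r : Q.Iter, r ∈ AddsHalfCohen Q.Iter := main

end Pool.Agent.Results.MP_ea0635_lc.AIteration
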